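import Pool.Agent.U61.NX.Tree
import Pool.Agent.U61.NX.CF
import Pool.Agent.U61.NX.Sim

set_option autoImplicit false

/-!
# A context-free language which is not a generator and dominates all quasi-rational languages
-/

namespace Pool.Agent.Results.MP_2d18ab_lc.NotGenerator

open Pool.Agent.Helper288.Cone Pool.Agent.U61.NX

/-- There is a context-free language `L` over a finite alphabet such that every quasi-rational
language is in the principal rational cone of `L`, while some context-free language is not. -/
theorem result : ∃ (X : Type) (_ : Fintype X) (L : Language X), L.IsContextFree ∧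
    (∀ (Y : Type) (N : Language Y), Qrt Y N → InCone L N) ∧
    ∃ (Y : Type) (_ : Fintype Y) (N : Language Y), N.IsContextFree ∧ ¬ InCone L N :=
  ⟨Ga, inferInstance, Lng, lng_cf, fun _ _ h => h.inCone,
    Fin 4, inferInstance, TreeL, treeL_cf, not_inCone_treeL⟩

end Pool.Agent.Results.MP_2d18ab_lc.NotGenerator
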